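/-
Pushes lying in a normal subgroup up to a power of the twist: if the normal subgroup contains the
slides of a handle over its neighbour, then it contains all pushes with trivial homology.
-/
import Pool.Agent.H.MP_59b15d_al.h93c.Cent
import Pool.Agent.H.MP_59b15d_al.h95g.Two
import Pool.Agent.H.MP_59b15d_al.pc.Peak
import Pool.Agent.H.MP_59b15d_al.pk.GOne

set_option autoImplicit false

namespace Pool.Agent.H.MP_59b15d_al.H62D

open SP PC PK
open Pool.MP_59b15d_al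
open Pool.MP_59b15d_al.H24T Pool.MP_59b15d_al.H60G Pool.MP_59b15d_al.H73E
open Pool.MP_59b15d_al.H76R hiding MR
open Pool.MP_59b15d_al.H95G
open H93C hiding emb emb_e emb_f emb_last cls_jR
open FreeGroup (of)

variable {n : ℕ} {G : Type*} [Group G] {a b : Fin (n + 1) → G}

/-- A subgroup normalised by the mapping class group and acting trivially on the homology. -/
structure KN (h : IsSurf a b) (K : Subgroup (MulAut G)) : Prop where
  conj : ∀ ψ ∈ MMs h, ∀ x ∈ K, ψ * x * ψ⁻¹ ∈ K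
  tor : ∀ x ∈ K, H1 h x = 1

/-- The pushes which lie in `K` up to a power of the twist. -/
def MK (h : IsSurf a b) (K : Subgroup (MulAut G)) : Subgroup (Fr n) where
  carrier := {y | ∃ k : ℤ, XX h y * TT h ^ k ∈ K}
  one_mem' := ⟨0, by rw [map_one, zpow_zero, one_mul]; exact K.one_mem⟩
  mul_mem' := by
    rintro x y ⟨k, hk⟩ ⟨l, hl⟩
    refine ⟨k + l, ?_⟩
    have c := ((TT_XX h y).zpow_left k).eq
    have h1 : XX h (x * y) * TT h ^ (k + l) = XX h x * TT h ^ k * (XX h y * TT h ^ l) := by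
      rw [map_mul, zpow_add]
      calc XX h x * XX h y * (TT h ^ k * TT h ^ l) =
          XX h x * (XX h y * TT h ^ k) * TT h ^ l := by group
        _ = _ := by rw [← c]; group
    rw [h1]
    exact K.mul_mem hk hl
  inv_mem' := by
    rintro x ⟨k, hk⟩
    refine ⟨-k, ?_⟩
    have c := ((TT_XX h x).zpow_left k)
    have h1 : XX h x⁻¹ * TT h ^ (-k) = (XX h x * TT h ^ k)⁻¹ := by
      rw [mul_inv_rev, map_inv, zpow_neg]
      exact c.inv_inv.eq.symm
    rw [h1]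
    exact K.inv_mem hk

variable {h : IsSurf a b} {K : Subgroup (MulAut G)}

lemma MK_conj (hK : KN h K) {y : Fr n} (hy : y ∈ MK h K) (z : Fr n) : z * y * z⁻¹ ∈ MK h K := by
  obtain ⟨k, hk⟩ := hy
  refine ⟨k, ?_⟩
  have c := ((TT_XX h z⁻¹).zpow_left k).eq
  have h1 : XX h (z * y * z⁻¹) * TT h ^ k = XX h z * (XX h y * TT h ^ k) * (XX h z)⁻¹ := by
    rw [map_mul, map_mul, mul_assoc, ← c, map_inv]
    group
  rw [h1]
  exact hK.conj _ (XX_MMs h z) _ hk

lemma MK_normal (hK : KN h K) : (MK h K).Normal := ⟨fun _ hy z => MK_conj hK hy z⟩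

lemma MK_pair (hK : KN h K) {f' : MulAut (Fr n)} {φ : MulAut G} (hp : Pair h f' φ)
    (hφ : φ ∈ MMs h) {y : Fr n} (hy : y ∈ MK h K) : f' y ∈ MK h K := by
  obtain ⟨k, hk⟩ := hy
  obtain ⟨l, hl⟩ := hp.fX y
  refine ⟨l + k, ?_⟩
  have c := ((comm_TT h hp.fj hp.fa hp.fb).zpow_right k).eq
  have h1 : XX h (f' y) * TT h ^ (l + k) = φ * (XX h y * TT h ^ k) * φ⁻¹ := by
    rw [zpow_add, ← mul_assoc, ← hl]
    calc φ * XX h y * φ⁻¹ * TT h ^ k = φ * XX h y * φ⁻¹ * (TT h ^ k * φ) * φ⁻¹ := by group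
      _ = _ := by rw [← c]; group
  rw [h1]
  exact hK.conj _ hφ _ hk

lemma MK_mem (hK : KN h K) {f' : MulAut (Fr n)} {φ : MulAut G} (hp : Pair h f' φ)
    (hφ : φ ∈ K) (z : Fr n) : f' z * z⁻¹ ∈ MK h K := by
  obtain ⟨l, hl⟩ := hp.fX z
  refine ⟨l, ?_⟩
  have c := ((TT_XX h z⁻¹).zpow_left l).eq
  have h1 : XX h (f' z * z⁻¹) * TT h ^ l = φ * (XX h z * φ⁻¹ * (XX h z)⁻¹) := by
    rw [map_mul, mul_assoc, ← c, ← mul_assoc, ← hl, map_inv]
    group
  rw [h1]
  exact K.mul_mem hφ (hK.conj _ (XX_MMs h z) _ (K.inv_mem hφ))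

/-- The slide of the handle `i` over the handle `j` lies in `K`. -/
def Slide (h : IsSurf a b) (K : Subgroup (MulAut G)) (i j : Fin n) : Prop :=
  ∃ φ ∈ K, φ ∈ H60G.MR h 0 n ∧
    φ (a j.castSucc) = a i.castSucc * b i.castSucc * (a i.castSucc)⁻¹ * (b i.castSucc)⁻¹ *
      a j.castSucc ∧
    φ (b j.castSucc) = b j.castSucc ∧
    φ (a i.castSucc) = (a i.castSucc * b i.castSucc * (a i.castSucc)⁻¹ * (b i.castSucc)⁻¹ *
      a j.castSucc * b j.castSucc * (a j.castSucc)⁻¹) * a i.castSucc *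
      (a i.castSucc * b i.castSucc * (a i.castSucc)⁻¹ * (b i.castSucc)⁻¹ *
      a j.castSucc * b j.castSucc * (a j.castSucc)⁻¹)⁻¹ ∧
    φ (b i.castSucc) = (a i.castSucc * b i.castSucc * (a i.castSucc)⁻¹ * (b i.castSucc)⁻¹ *
      a j.castSucc * b j.castSucc * (a j.castSucc)⁻¹) * b i.castSucc *
      (a i.castSucc * b i.castSucc * (a i.castSucc)⁻¹ * (b i.castSucc)⁻¹ *
      a j.castSucc * b j.castSucc * (a j.castSucc)⁻¹)⁻¹

/-- The commutation of two handles modulo the pushes in `K`. -/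
def HC (h : IsSurf a b) (K : Subgroup (MulAut G)) (x y : Fr n) : Prop :=
  x * y * x⁻¹ * y⁻¹ ∈ MK h K

lemma HC_pair (hK : KN h K) {f' : MulAut (Fr n)} {φ : MulAut G} (hp : Pair h f' φ)
    (hφ : φ ∈ MMs h) {x y : Fr n} (hxy : HC h K x y) : HC h K (f' x) (f' y) := by
  have h1 := MK_pair hK hp hφ hxy
  simp only [map_mul, map_inv] at h1
  exact h1

lemma HC_iff (hK : KN h K) {x y : Fr n} : HC h K x y ↔
    haveI := MK_normal hK
    Commute (QuotientGroup.mk' (MK h K) x) (QuotientGroup.mk' (MK h K) y) := by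
  haveI := MK_normal hK
  have h1 : HC h K x y ↔ QuotientGroup.mk' (MK h K) (x * y * x⁻¹ * y⁻¹) = 1 :=
    (QuotientGroup.eq_one_iff _).symm
  rw [h1, map_mul, map_mul, map_mul, map_inv, map_inv, mul_inv_eq_one, mul_inv_eq_iff_eq_mul]
  rfl

end Pool.Agent.H.MP_59b15d_al.H62D
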