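/-
All handles commute modulo the pushes in `K`.
-/
import Pool.Agent.H.MP_59b15d_al.h62d.MK
import Pool.Agent.H.MP_59b15d_al.pk.Eta

set_option autoImplicit false

namespace Pool.Agent.H.MP_59b15d_al.H62D

open SP PC PK
open Pool.MP_59b15d_al
open Pool.MP_59b15d_al.H24T Pool.MP_59b15d_al.H60G Pool.MP_59b15d_al.H73E
open Pool.MP_59b15d_al.H76R hiding MR
open Pool.MP_59b15d_al.H95G
open H93C hiding emb emb_e emb_f emb_last cls_jR
open FreeGroup (of)

variable {n : ℕ} {G : Type*} [Group G] {a b : Fin (n + 1) → G}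
variable {h : IsSurf a b} {K : Subgroup (MulAut G)}

/-- Algebra of a slide. -/
lemma slide_alg {P : Type*} [Group P] {A B x u : P} (hx : Commute (A * B * A⁻¹) x)
    (hu : Commute (A * B * A⁻¹) u) (hx' : Commute (A * B) x) (hu' : Commute (A * B) u) :
    (Commute A x ∧ Commute B x) ∧ Commute A u ∧ Commute B u := by
  have key : ∀ {y : P}, Commute (A * B * A⁻¹) y → Commute (A * B) y →
      Commute A y ∧ Commute B y := by
    intro y h1 h2
    have hA : Commute A y := by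
      have h3 : A = (A * B * A⁻¹)⁻¹ * (A * B) := by group
      rw [h3]
      exact h1.inv_left.mul_left h2
    have hB : Commute B y := by
      have h3 : B = A⁻¹ * (A * B) := by group
      rw [h3]
      exact hA.inv_left.mul_left h2
    exact ⟨hA, hB⟩
  exact ⟨key hx hx', key hu hu'⟩

/-- What a slide gives. -/
lemma Slide.out (hK : KN h K) {i j : Fin n} (hij : i ≠ j) (hs : Slide h K i j) :
    cf i ∈ MK h K ∧ (HC h K (of (Sum.inl j)) (of (Sum.inl i)) ∧
      HC h K (of (Sum.inr j)) (of (Sum.inl i))) ∧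
      HC h K (of (Sum.inl j)) (of (Sum.inr i)) ∧ HC h K (of (Sum.inr j)) (of (Sum.inr i)) := by
  obtain ⟨φ, hφ, hM, v1, v2, v3, v4⟩ := hs
  obtain ⟨f', hp⟩ := pair_of_MR h le_rfl φ hM
  haveI := MK_normal hK
  have w1 : f' (of (Sum.inl j)) = cf i * of (Sum.inl j) := by
    apply jR_injective h
    rw [← hp.fj, jR_a, v1, cf]
    simp only [map_mul, map_inv, jR_a, jR_b]
  have w3 : f' (of (Sum.inl i)) = (cf i * of (Sum.inl j) * of (Sum.inr j) *
      (of (Sum.inl j))⁻¹) * of (Sum.inl i) * (cf i * of (Sum.inl j) * of (Sum.inr j) *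
      (of (Sum.inl j))⁻¹)⁻¹ := by
    apply jR_injective h
    rw [← hp.fj, jR_a, v3, cf]
    simp only [map_mul, map_inv, jR_a, jR_b]
  have w4 : f' (of (Sum.inr i)) = (cf i * of (Sum.inl j) * of (Sum.inr j) *
      (of (Sum.inl j))⁻¹) * of (Sum.inr i) * (cf i * of (Sum.inl j) * of (Sum.inr j) *
      (of (Sum.inl j))⁻¹)⁻¹ := by
    apply jR_injective h
    rw [← hp.fj, jR_b, v4, cf]
    simp only [map_mul, map_inv, jR_a, jR_b]
  have c1 : cf i ∈ MK h K := by
    have h1 := MK_mem hK hp hφ (of (Sum.inl j))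
    rwa [w1, mul_inv_cancel_right] at h1
  have p1 : QuotientGroup.mk' (MK h K) (cf i) = 1 := (QuotientGroup.eq_one_iff _).2 c1
  -- the commutation with the conjugate of b
  have c2 : ∀ x : Fr n, f' x = (cf i * of (Sum.inl j) * of (Sum.inr j) *
      (of (Sum.inl j))⁻¹) * x * (cf i * of (Sum.inl j) * of (Sum.inr j) *
      (of (Sum.inl j))⁻¹)⁻¹ → HC h K (of (Sum.inl j) * of (Sum.inr j) * (of (Sum.inl j))⁻¹) x := by
    intro x hx
    have h1 := MK_mem hK hp hφ x
    rw [hx] at h1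
    have h2 : HC h K (cf i * of (Sum.inl j) * of (Sum.inr j) * (of (Sum.inl j))⁻¹) x := h1
    rw [HC_iff hK] at h2 ⊢
    simp only [map_mul, map_inv, p1, one_mul] at h2 ⊢
    exact h2
  have c3 := c2 _ w3
  have c4 := c2 _ w4
  -- the twist about the other handle
  have hT : TA h j.castSucc ∈ MMs h := MR_le_MMs h _ _ (TA_mem h _ (Nat.zero_le _) (Fin.is_lt _))
  have d : ∀ x : Fr n, FA j x = x →
      HC h K (of (Sum.inl j) * of (Sum.inr j) * (of (Sum.inl j))⁻¹) x →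
      HC h K (of (Sum.inl j) * of (Sum.inr j)) x := by
    intro x hx h1
    have h2 := HC_pair hK (pair_TA h j) hT h1
    simp only [map_mul, map_inv, FA_self, FA_ne j (x := Sum.inl j) (by simp), hx,
      mul_inv_cancel_right, ← mul_assoc] at h2
    exact h2
  have d3 := d _ (FA_ne j (by simp)) c3
  have d4 := d _ (FA_ne j (by simp [hij])) c4
  rw [HC_iff hK] at c3 c4 d3 d4
  simp only [map_mul, map_inv] at c3 c4 d3 d4
  obtain ⟨⟨e1, e2⟩, e3, e4⟩ := slide_alg c3 c4 d3 d4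
  exact ⟨c1, ⟨(HC_iff hK).2 e1, (HC_iff hK).2 e2⟩, (HC_iff hK).2 e3, (HC_iff hK).2 e4⟩

/-- The swap as a pair. -/
lemma exists_sw (h : IsSurf a b) {j k : Fin n} (hjk : (k : ℕ) = j + 1) :
    ∃ (f' : MulAut (Fr n)) (σ : MulAut G), Pair h f' σ ∧ σ ∈ MMs h ∧
      (f' (of (Sum.inl j)) = of (Sum.inl k) ∧ f' (of (Sum.inr j)) = of (Sum.inr k)) ∧
      ∀ i : Fin n, (i : ℕ) < j → f' (of (Sum.inl i)) = of (Sum.inl i) ∧
        f' (of (Sum.inr i)) = of (Sum.inr i) := by
  obtain ⟨σ, s1, ⟨s2, s3⟩, -⟩ := exists_swap' h (j : ℕ) (by omega)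
  have s4 : σ ∈ H60G.MR h 0 n := MR_mono h (Nat.zero_le _) (by omega) s1
  obtain ⟨σ', hp⟩ := pair_of_MR h le_rfl σ s4
  have ek : ex a ((j : ℕ) + 1) = ex a (k : ℕ) := by rw [hjk]
  have ek' : ex b ((j : ℕ) + 1) = ex b (k : ℕ) := by rw [hjk]
  rw [ek] at s2
  rw [ek'] at s3
  obtain ⟨v1, v2⟩ := pair_val h hp s2 s3
  refine ⟨σ'⁻¹, σ⁻¹, hp.inv, inv_mem (MR_le_MMs h _ _ s1), ⟨?_, ?_⟩, fun i hi => ?_⟩
  · rw [← v1, MulAut.inv_apply_self]
  · rw [← v2, MulAut.inv_apply_self]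
  · have h1 := MR_fix h s1 (k := i.castSucc) (Or.inl (by rw [Fin.val_castSucc]; exact hi))
    rw [ex_val, ex_val] at h1
    have h2 : σ' (of (Sum.inl i)) = of (Sum.inl i) := by
      apply jR_injective h
      rw [← hp.fj, jR_a, h1.1]
    have h3 : σ' (of (Sum.inr i)) = of (Sum.inr i) := by
      apply jR_injective h
      rw [← hp.fj, jR_b, h1.2]
    constructor
    · conv_lhs => rw [← h2]
      rw [MulAut.inv_apply_self]
    · conv_lhs => rw [← h3]
      rw [MulAut.inv_apply_self]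

/-- All handles on the left commute with the handle `k`. -/
lemma comm_of_adj (hK : KN h K) (hadj : ∀ i j : Fin n, (j : ℕ) = i + 1 → Slide h K i j) :
    ∀ (d : ℕ) (i k : Fin n), (k : ℕ) = i + 1 + d →
      (HC h K (of (Sum.inl k)) (of (Sum.inl i)) ∧ HC h K (of (Sum.inr k)) (of (Sum.inl i))) ∧
      HC h K (of (Sum.inl k)) (of (Sum.inr i)) ∧ HC h K (of (Sum.inr k)) (of (Sum.inr i)) := by
  intro d
  induction d with
  | zero =>
    intro i k hk
    exact (Slide.out hK (fun h0 => by rw [h0] at hk; omega) (hadj i k hk)).2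
  | succ d ih =>
    intro i k hk
    let j : Fin n := ⟨i + 1 + d, by omega⟩
    have hjk : (k : ℕ) = j + 1 := by simp only [j]; omega
    obtain ⟨f', σ, hp, hσ, ⟨v1, v2⟩, v3⟩ := exists_sw h hjk
    obtain ⟨⟨e1, e2⟩, e3, e4⟩ := ih i j rfl
    obtain ⟨u1, u2⟩ := v3 i (by simp only [j]; omega)
    have g1 := HC_pair hK hp hσ e1
    have g2 := HC_pair hK hp hσ e2
    have g3 := HC_pair hK hp hσ e3
    have g4 := HC_pair hK hp hσ e4
    rw [v1, u1] at g1
    rw [v2, u1] at g2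
    rw [v1, u2] at g3
    rw [v2, u2] at g4
    exact ⟨⟨g1, g2⟩, g3, g4⟩

lemma HC_symm (hK : KN h K) {x y : Fr n} (hxy : HC h K x y) : HC h K y x := by
  haveI := MK_normal hK
  rw [HC_iff hK] at hxy ⊢
  exact hxy.symm

/-- The boundary of every handle. -/
lemma cf_mem (hK : KN h K) (hadj : ∀ i j : Fin n, (j : ℕ) = i + 1 → Slide h K i j)
    (hn : 2 ≤ n) (i : Fin n) : cf i ∈ MK h K := by
  by_cases hi : (i : ℕ) + 1 < n
  · let j : Fin n := ⟨i + 1, hi⟩
    exact (Slide.out hK (fun h0 => by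
      have := congrArg Fin.val h0
      simp only [j] at this
      omega) (hadj i j rfl)).1
  · let j : Fin n := ⟨n - 2, by omega⟩
    have hji : (i : ℕ) = j + 1 := by simp only [j]; omega
    obtain ⟨f', σ, hp, hσ, ⟨v1, v2⟩, -⟩ := exists_sw h hji
    have h1 := (Slide.out hK (fun h0 => by rw [h0] at hji; omega) (hadj j i hji)).1
    have h2 := MK_pair hK hp hσ h1
    rw [cf] at h2 ⊢
    simp only [map_mul, map_inv, v1, v2] at h2
    exact h2

/-- All pushes with trivial homology lie in `K`. -/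
theorem push_mem (hK : KN h K) (hadj : ∀ i j : Fin n, (j : ℕ) = i + 1 → Slide h K i j)
    (hn : 2 ≤ n) (y : Fr n) (k : ℤ) (h1 : H1 h (XX h y * TT h ^ k) = 1) :
    XX h y * TT h ^ k ∈ K := by
  haveI := MK_normal hK
  have hcomm : ∀ i j : Fin n, i ≠ j →
      (HC h K (of (Sum.inl i)) (of (Sum.inl j)) ∧ HC h K (of (Sum.inr i)) (of (Sum.inl j))) ∧
      HC h K (of (Sum.inl i)) (of (Sum.inr j)) ∧ HC h K (of (Sum.inr i)) (of (Sum.inr j)) := by
    intro i j hij
    rcases lt_or_gt_of_ne (fun h0 => hij (Fin.ext h0) : (i : ℕ) ≠ j) with hlt | hlt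
    · obtain ⟨⟨e1, e2⟩, e3, e4⟩ := comm_of_adj hK hadj (j - i - 1) i j (by omega)
      exact ⟨⟨HC_symm hK e1, HC_symm hK e3⟩, HC_symm hK e2, HC_symm hK e4⟩
    · exact comm_of_adj hK hadj (i - j - 1) j i (by omega)
  have hcf := cf_mem hK hadj hn
  let π : Fr n →* Fr n ⧸ MK h K := QuotientGroup.mk' _
  have hR : HRel (fun i => π (of (Sum.inl i))) (fun i => π (of (Sum.inr i))) 1 :=
    { ca := fun i => Commute.one_left _
      cb := fun i => Commute.one_left _
      aa := fun i j hij => (HC_iff hK).1 (hcomm i j hij).1.1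
      bb := fun i j hij => (HC_iff hK).1 (hcomm i j hij).2.2
      ab := fun i j hij => (HC_iff hK).1 (hcomm i j hij).2.1
      rel := fun i => by
        have h2 : π (cf i) = 1 := (QuotientGroup.eq_one_iff _).2 (hcf i)
        rw [← h2, cf]
        simp only [map_mul, map_inv] }
  obtain ⟨c1, -⟩ := push_triv h h1
  obtain ⟨j, hj⟩ : ∃ j : ℤ, hs y = Hs.z ^ j := ⟨_, Hs.eq_z_of_v (a := hs y) c1⟩
  let i0 : Fin n := ⟨0, by omega⟩
  have h3 : hs (y * (cf i0) ^ (-j)) = 1 := by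
    rw [map_mul, map_zpow, hj, hs_cf, ← zpow_add, add_neg_cancel, zpow_zero]
  have h4 : y * (cf i0) ^ (-j) ∈ MK h K := (QuotientGroup.eq_one_iff _).1 (hs_ker π hR h3)
  have h5 : y ∈ MK h K := by
    have h6 := (MK h K).mul_mem h4 ((MK h K).zpow_mem (hcf i0) j)
    rwa [mul_assoc, ← zpow_add, neg_add_cancel, zpow_zero, mul_one] at h6
  obtain ⟨l, hl⟩ := h5
  have h6 : H1 h (TT h ^ (k - l)) = 1 := by
    have h7 : TT h ^ (k - l) = (XX h y * TT h ^ l)⁻¹ * (XX h y * TT h ^ k) := by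
      rw [zpow_sub]
      have c := ((Commute.refl (TT h)).zpow_zpow k (-l)).eq
      rw [zpow_neg] at c
      rw [c]
      group
    rw [h7, map_mul, map_inv, hK.tor _ hl, h1, inv_one, one_mul]
  have h7 := TT_zpow_triv h h6
  have h8 : k = l := by omega
  rwa [h8]

end Pool.Agent.H.MP_59b15d_al.H62D
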