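/-
A normal subgroup which contains the bounding pair maps of genus one contains the Torelli group.
-/
import Pool.Agent.H.MP_59b15d_al.deg.End1
import Pool.Agent.H.MP_59b15d_al.h62d.MC
import Pool.Agent.H.MP_59b15d_al.pk.Eta2

set_option autoImplicit false

namespace Pool.Agent.H.MP_59b15d_al.H62D

open SP PC Deg
open PK hiding RR
open Pool.MP_59b15d_al
open Pool.MP_59b15d_al.H24T Pool.MP_59b15d_al.H60G Pool.MP_59b15d_al.H73E
open Pool.MP_59b15d_al.H76R hiding MR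
open Pool.MP_59b15d_al.H95G Pool.MP_59b15d_al.H40L
open H93C hiding emb emb_e emb_f emb_last cls_jR
open FreeGroup (of)

variable {n : ℕ} {G : Type*} [Group G] {a b : Fin (n + 1) → G}

/-- The bounding pair map acts trivially on the homology. -/
lemma BT_tor (h : IsSurf a b) {i j : Fin (n + 1)} (hij : (j : ℕ) = i + 1) :
    H1 h (BT h hij * TA h j) = 1 := by
  have n1 : i ≠ j := fun h0 => by rw [h0] at hij; omega
  have cj : ∀ x y : G, cls h (x * y * x⁻¹) = cls h y := by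
    intro x y
    rw [cls_mul, cls_mul, cls_inv]
    abel
  have cc : cls h (cx a b i j) = e j := by
    rw [cx]
    simp only [cls_mul, cls_inv, cls_a, cls_b]
    abel
  refine lin_ext (fun k => ?_) (fun k => ?_)
  · rw [H1_e, MulAut.mul_apply, TA_a]
    by_cases hi : k = i
    · subst hi
      rw [BT_ai, cj, cls_a]; rfl
    by_cases hj : k = j
    · subst hj
      rw [BT_aj, cj, cls_a]; rfl
    rw [(BT_ne h hij hi hj).1, cls_a]; rfl
  · rw [H1_f, MulAut.mul_apply]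
    by_cases hi : k = i
    · subst hi
      rw [TA_b_ne h n1, BT_bi, cj, cls_b]; rfl
    by_cases hj : k = j
    · subst hj
      rw [TA_b, map_mul, BT_bj, BT_aj, cls_mul, cj, cls_mul, cls_inv, cc, cls_a, cls_b]
      change f k + -e k + e k = f k
      abel
    rw [TA_b_ne h hj, (BT_ne h hij hi hj).2, cls_b]; rfl

/-- The slide lies in `K` if the bounding pair map does. -/
lemma PH_mem_of (h : IsSurf a b) {K : Subgroup (MulAut G)}
    (hK : ∀ ψ ∈ MMs h, ∀ x ∈ K, ψ * x * ψ⁻¹ ∈ K) {i j : Fin (n + 1)} (hij : (j : ℕ) = i + 1)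
    (h1 : BT h hij * TA h j ∈ K) : PH h hij ∈ K := by
  have hA : TA h j ∈ MMs h := MR_le_MMs h 0 (n + 1) (TA_mem h _ (Nat.zero_le _) j.2)
  have hB : TB h j ∈ MMs h := MR_le_MMs h 0 (n + 1) (TB_mem h _ (Nat.zero_le _) j.2)
  have hR : RR h j ∈ MMs h := mul_mem (mul_mem (inv_mem hA) hB) (inv_mem hA)
  have hb : RR h j * (TA h j)⁻¹ * (RR h j)⁻¹ = TB h j := by
    rw [mul_inv_eq_iff_eq_mul, RR, ← mul_assoc, ← mul_assoc]
    have h2 := rt_braid (h := h) (i := j)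
    calc (TA h j)⁻¹ * TB h j * (TA h j)⁻¹ * (TA h j)⁻¹ =
        TB h j * (TA h j)⁻¹ * TB h j * (TA h j)⁻¹ := by rw [h2]
      _ = _ := by group
  have h2 : PH h hij = (TB h j)⁻¹ * (RR h j * (BT h hij * TA h j) * (RR h j)⁻¹) *
      ((TB h j)⁻¹)⁻¹ := by
    have h3 : RR h j * BT h hij * (RR h j)⁻¹ =
        RR h j * (BT h hij * TA h j) * (RR h j)⁻¹ * (RR h j * (TA h j)⁻¹ * (RR h j)⁻¹) := by
      group
    rw [PH, h3, hb, inv_inv]
    group
  rw [h2]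
  exact hK _ (inv_mem hB) _ (hK _ hR _ h1)

/-- **The end of section 2.** -/
theorem torelli_of_BT (h : IsSurf a b) (hn : 2 ≤ n) {K : Subgroup (MulAut G)}
    (hK : ∀ ψ ∈ MMs h, ∀ x ∈ K, ψ * x * ψ⁻¹ ∈ K)
    (hbt : ∀ (i j : Fin (n + 1)) (hij : (j : ℕ) = i + 1), BT h hij * TA h j ∈ K)
    (hMR : ∀ (i j : Fin (n + 1)) (hij : (j : ℕ) = i + 1), PH h hij ∈ H60G.MR h i (j + 1))
    (hgw : ∀ (i : Fin n) (hl : ((Fin.last n : Fin (n + 1)) : ℕ) = i.castSucc + 1),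
      gw h i hl * TA h (Fin.last n) * (gw h i hl)⁻¹ = (BT h hl)⁻¹) :
    ∀ φ ∈ MMs h, H1 h φ = 1 → φ ∈ K := by
  have hN : KN h (K ⊓ (H1 h).ker) :=
    { conj := fun ψ hψ x hx => ⟨hK ψ hψ x hx.1, by
        change H1 h (ψ * x * ψ⁻¹) = 1
        rw [map_mul, map_mul, map_inv, (MonoidHom.mem_ker).1 hx.2, mul_one, mul_inv_cancel]⟩
      tor := fun x hx => (MonoidHom.mem_ker).1 hx.2 }
  have hbt' : ∀ (i j : Fin (n + 1)) (hij : (j : ℕ) = i + 1),
      BT h hij * TA h j ∈ K ⊓ (H1 h).ker := fun i j hij => ⟨hbt i j hij, BT_tor h hij⟩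
  have hsl : ∀ i j : Fin n, (j : ℕ) = i + 1 → Slide h (K ⊓ (H1 h).ker) i j := by
    intro i j hij
    have hij' : (j.castSucc : ℕ) = i.castSucc + 1 := hij
    have c : ∀ x : G, cx a b i.castSucc j.castSucc * b j.castSucc * (a j.castSucc)⁻¹ * x *
        (cx a b i.castSucc j.castSucc * b j.castSucc * (a j.castSucc)⁻¹)⁻¹ =
        (a i.castSucc * b i.castSucc * (a i.castSucc)⁻¹ * (b i.castSucc)⁻¹ *
      a j.castSucc * b j.castSucc * (a j.castSucc)⁻¹) * x *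
      (a i.castSucc * b i.castSucc * (a i.castSucc)⁻¹ * (b i.castSucc)⁻¹ *
      a j.castSucc * b j.castSucc * (a j.castSucc)⁻¹)⁻¹ := fun x => rfl
    refine ⟨PH h hij', PH_mem_of h hN.conj hij' (hbt' _ _ hij'), ?_, PH_aj h hij', PH_bj h hij',
      (PH_ai h hij').trans (c _), (PH_bi h hij').trans (c _)⟩
    exact MR_mono h (Nat.zero_le _) (by rw [Fin.val_castSucc]; omega) (hMR _ _ hij')
  have K1 := push_mem hN hsl hn
  have hle : ∀ x ∈ K ⊓ (H1 h).ker, x ∈ K := fun x hx => hx.1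
  -- the separating twist
  let i : Fin n := ⟨n - 1, by omega⟩
  have hi : (i : ℕ) + 1 = n := by simp only [i]; omega
  have hl : ((Fin.last n : Fin (n + 1)) : ℕ) = i.castSucc + 1 := by
    rw [Fin.val_last, Fin.val_castSucc, hi]
  obtain ⟨k, hk⟩ := XX_TT_triv h (y := cf i) (by
    change clr (of (Sum.inl i) * of (Sum.inr i) * (of (Sum.inl i))⁻¹ * (of (Sum.inr i))⁻¹) = 0
    rw [clr_mul, clr_mul, clr_mul, clr_inv, clr_inv]
    abel)
  have hk2 : k = -2 := by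
    have h2 := (push_triv h hk).2
    have h3 : hs (cf i) = Hs.z ^ (1 : ℤ) := by rw [zpow_one]; exact hs_cf i
    rw [h3, wn_zz] at h2
    omega
  rw [hk2] at hk
  have hY := K1 _ _ hk
  rw [XX_cf_Yk, Yk_eq h hi hl, hgw i hl] at hY
  have h3 : (BT h hl)⁻¹ * (TA h (Fin.last n))⁻¹ ∈ K ⊓ (H1 h).ker := by
    have h4 := inv_mem (hbt' _ _ hl)
    rw [mul_inv_rev] at h4
    have hA : TA h (Fin.last n) ∈ MMs h :=
      MR_le_MMs h 0 (n + 1) (TA_mem h _ (Nat.zero_le _) (Fin.last n).2)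
    have h5 := hN.conj _ hA _ h4
    have h6 : TA h (Fin.last n) * ((TA h (Fin.last n))⁻¹ * (BT h hl)⁻¹) *
        (TA h (Fin.last n))⁻¹ = (BT h hl)⁻¹ * (TA h (Fin.last n))⁻¹ := by group
    rwa [h6] at h5
  have h4 : ((TA h i.castSucc)⁻¹ * TB h i.castSucc) ^ 6 ∈ K ⊓ (H1 h).ker := by
    have h5 := mul_mem hY (inv_mem h3)
    have h6 : ((TA h i.castSucc)⁻¹ * TB h i.castSucc) ^ 6 * (BT h hl)⁻¹ *
        (TA h (Fin.last n))⁻¹ * ((BT h hl)⁻¹ * (TA h (Fin.last n))⁻¹)⁻¹ =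
        ((TA h i.castSucc)⁻¹ * TB h i.castSucc) ^ 6 := by group
    rwa [h6] at h5
  obtain ⟨σ, hσ, hσ2⟩ := sep_conj h hi
  have K2 : ((TA h (Fin.last n))⁻¹ * TB h (Fin.last n)) ^ 6 ∈ K ⊓ (H1 h).ker := by
    rw [hσ2] at h4
    have h5 := hN.conj _ (inv_mem hσ) _ h4
    have h6 : σ⁻¹ * (σ * ((TA h (Fin.last n))⁻¹ * TB h (Fin.last n)) ^ 6 * σ⁻¹) * σ⁻¹⁻¹ =
        ((TA h (Fin.last n))⁻¹ * TB h (Fin.last n)) ^ 6 := by group
    rwa [h6] at h5
  exact fun φ hφ h1 => hle _ (torelli_gen h _ hN.conj K1 K2 φ hφ h1)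

end Pool.Agent.H.MP_59b15d_al.H62D
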