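/-
The end of section 2: a normal subgroup which contains the bounding pair maps of genus `q` and
`q + 1` contains the Torelli group.
-/
import Pool.Agent.H.MP_59b15d_al.h62d.End2
import Pool.Agent.H.MP_59b15d_al.deg.End2
import Pool.Agent.H.MP_59b15d_al.deg.Tp

set_option autoImplicit false

namespace Pool.Agent.H.MP_59b15d_al.H62D

open SP PC Deg
open PK hiding RR
open Pool.MP_59b15d_al
open Pool.MP_59b15d_al.H24T Pool.MP_59b15d_al.H60G Pool.MP_59b15d_al.H73E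
open Pool.MP_59b15d_al.H76R hiding MR
open Pool.MP_59b15d_al.H95G Pool.MP_59b15d_al.H40L

/-- The twist `Tp` has the values of `TqV`. -/
theorem TqV_Tp {m : ℕ} {G : Type*} [Group G] {a b : Fin m → G} (h : IsSurf a b) (q : Fin m) :
    TqV a b q (Tp h q) where
  al l hl := Tp_a_le h (le_of_lt (Fin.lt_def.2 hl))
  bl l hl := Tp_b_lt h (Fin.lt_def.2 hl)
  aq := by
    rw [Tp_a_le h le_rfl, cp]
    group
  bq := Tp_b_self h
  ar l hl := Tp_a_gt h (Fin.lt_def.2 hl)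
  br l hl := Tp_b_gt h (Fin.lt_def.2 hl)

section

variable {n : ℕ} {G : Type*} [Group G] {a b : Fin (n + 1) → G}

/-- **The end of section 2**, with values of the twists. -/
theorem torelli_of_pairs (h : IsSurf a b) (hn : 2 ≤ n) (K : Subgroup (MulAut G))
    (hK : ∀ ψ ∈ MMs h, ∀ x ∈ K, ψ * x * ψ⁻¹ ∈ K)
    {q q' : Fin (n + 1)} (hq : (q' : ℕ) = q + 1) {T T' : MulAut G} (hT : TqV a b q T)
    (hT' : TqV a b q' T') (h1 : TA h q * T ∈ K) (h2 : TA h q' * T' ∈ K) :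
    ∀ φ ∈ MMs h, H1 h φ = 1 → φ ∈ K := by
  refine torelli_of_BT h hn hK (BT_all h K hK hq hT hT' h1 h2) (fun i j hij => ?_)
    (fun i hl => ?_)
  · have h3 := PH_mem h hij
    have h4 : (i : ℕ) + 2 = j + 1 := by omega
    rwa [h4] at h3
  · refine BT_gw h ?_ hl
    rw [Fin.val_last, Fin.val_castSucc] at hl
    exact hl.symm

/-- **The end of section 2**, with the twists `Tp`. -/
theorem torelli_of_Tp (h : IsSurf a b) (hn : 2 ≤ n) (K : Subgroup (MulAut G))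
    (hK : ∀ ψ ∈ MMs h, ∀ x ∈ K, ψ * x * ψ⁻¹ ∈ K)
    {q q' : Fin (n + 1)} (hq : (q' : ℕ) = q + 1)
    (h1 : TA h q * Tp h q ∈ K) (h2 : TA h q' * Tp h q' ∈ K) :
    ∀ φ ∈ MMs h, H1 h φ = 1 → φ ∈ K :=
  torelli_of_pairs h hn K hK hq (TqV_Tp h q) (TqV_Tp h q') h1 h2

end

/-- **The end of section 2** in genus `m`. -/
theorem torelli_of_Tp' {m : ℕ} {G : Type*} [Group G] {a b : Fin m → G} (h : IsSurf a b)
    (hm : 3 ≤ m) (K : Subgroup (MulAut G)) (hK : ∀ ψ ∈ MMs h, ∀ x ∈ K, ψ * x * ψ⁻¹ ∈ K)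
    {q q' : Fin m} (hq : (q' : ℕ) = q + 1)
    (h1 : TA h q * Tp h q ∈ K) (h2 : TA h q' * Tp h q' ∈ K) :
    ∀ φ ∈ MMs h, H1 h φ = 1 → φ ∈ K := by
  obtain ⟨n, rfl⟩ : ∃ n, m = n + 1 := ⟨m - 1, by omega⟩
  exact torelli_of_Tp h (by omega) K hK hq h1 h2

/-- **The end of section 2** for a homomorphism `ρ` of the mapping class group: if the two twists
of the bounding pairs of genus `q` and `q + 1` are inverse to each other, the Torelli group acts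
trivially. -/
theorem torelli_of_hom {m : ℕ} {G : Type*} [Group G] {a b : Fin m → G} (h : IsSurf a b)
    (hm : 3 ≤ m) {Q : Type*} [Group Q] (ρ : MMs h →* Q)
    {q q' : Fin m} (hq : (q' : ℕ) = q + 1)
    (h1 : ∀ hx : TA h q * Tp h q ∈ MMs h, ρ ⟨_, hx⟩ = 1)
    (h2 : ∀ hx : TA h q' * Tp h q' ∈ MMs h, ρ ⟨_, hx⟩ = 1) :
    ∀ (φ : MulAut G) (hφ : φ ∈ MMs h), H1 h φ = 1 → ρ ⟨φ, hφ⟩ = 1 := by
  have hA : ∀ i : Fin m, TA h i * Tp h i ∈ MMs h := by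
    intro i
    refine mul_mem (MR_le_MMs h 0 m (TA_mem h i (Nat.zero_le _) i.2)) ?_
    exact MR_le_MMs h 0 m (MR_mono h (le_refl 0) (by omega : (i : ℕ) + 1 ≤ m) (Tp_mem h i))
  have key := torelli_of_Tp' h hm (ρ.ker.map (MMs h).subtype) (fun ψ hψ x hx => ?_) hq
    ⟨⟨_, hA q⟩, h1 _, rfl⟩ ⟨⟨_, hA q'⟩, h2 _, rfl⟩
  · intro φ hφ h3
    obtain ⟨y, hy, hy2⟩ := key φ hφ h3
    have h4 : y = ⟨φ, hφ⟩ := Subtype.ext hy2
    rw [← h4]
    exact hy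
  · obtain ⟨y, hy, rfl⟩ := hx
    refine ⟨⟨ψ, hψ⟩ * y * ⟨ψ, hψ⟩⁻¹, ?_, rfl⟩
    change ρ (⟨ψ, hψ⟩ * y * ⟨ψ, hψ⟩⁻¹) = 1
    have h3 : ρ y = 1 := hy
    rw [map_mul, map_mul, map_inv, h3, mul_one, mul_inv_cancel]

end Pool.Agent.H.MP_59b15d_al.H62D
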