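/-
The end of section 2 for a homomorphism of the mapping class group.
-/
import Pool.Agent.H.MP_59b15d_al.h62d.End3
import Pool.Agent.H.MP_59b15d_al.h46u.Inst

set_option autoImplicit false

namespace Pool.Agent.H.MP_59b15d_al.H62D

open Pool.MP_59b15d_al.H24T Pool.MP_59b15d_al.H76R Pool.MP_59b15d_al.H73E
open Pool.MP_59b15d_al.H60G Pool.MP_59b15d_al.H40L Pool.MP_59b15d_al.H46U
open Pool.Agent.H.MP_59b15d_al.Deg
open Pool.Agent.H.MP_59b15d_al.Lin (uA uB uC)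
open Pool.Agent.H.MP_59b15d_al.SP (cls H1)

variable {m : ℕ} {G : Type*} [Group G] {a b : Fin m → G}

/-- **The end of section 2**: if the two twists of the bounding pairs of the handles `q` and
`q + 1` have the same image, the Torelli group has trivial image. -/
theorem torelli_mcg (h : IsSurf a b) (hm : 3 ≤ m) {M : Type*} [Monoid M] (ρ : MCG a b →* M)
    {q q' : Fin m} (hq : (q' : ℕ) = q + 1)
    (h1 : ρ (uA h q) = ρ (uT h q)) (h2 : ρ (uA h q') = ρ (uT h q')) :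
    ∀ φ : MCG a b, (∀ x, cls h ((φ : MulAut G) x) = cls h x) → ρ φ = 1 := by
  have e : MCG a b = MMs h := MCG_eq h
  have key : ∀ i : Fin m, ρ (uA h i) = ρ (uT h i) →
      TA h i * Tp h i ∈ ρ.ker.map (MCG a b).subtype := by
    intro i hi
    have h3 : ρ ((uA h i)⁻¹ * uT h i) = 1 := by
      rw [map_mul, ← hi, ← map_mul, inv_mul_cancel, map_one]
    refine ⟨(uA h i)⁻¹ * uT h i, h3, ?_⟩
    change (Pool.MP_59b15d_al.H40L.TrA h i)⁻¹ * Tp h i = TA h i * Tp h i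
    rw [Pool.MP_59b15d_al.H40L.TrA_lt h i.2, inv_inv]
  intro φ hφ
  have h3 : H1 h (φ : MulAut G) = 1 := by
    refine SP.lin_ext (fun k => ?_) (fun k => ?_)
    · rw [SP.H1_e, hφ, SP.cls_a]; rfl
    · rw [SP.H1_f, hφ, SP.cls_b]; rfl
  obtain ⟨y, hy, hy2⟩ := torelli_of_Tp' h hm (ρ.ker.map (MCG a b).subtype)
    (fun ψ hψ x hx => by
      obtain ⟨y, hy, rfl⟩ := hx
      rw [← e] at hψ
      refine ⟨⟨ψ, hψ⟩ * y * ⟨ψ, hψ⟩⁻¹, ?_, rfl⟩
      change ρ (⟨ψ, hψ⟩ * y * ⟨ψ, hψ⟩⁻¹) = 1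
      have h4 : ρ y = 1 := hy
      rw [map_mul, map_mul, h4, mul_one, ← map_mul, mul_inv_cancel, map_one])
    hq (key q h1) (key q' h2) φ (e ▸ φ.2) h3
  have h4 : y = φ := Subtype.ext hy2
  rw [← h4]
  exact hy

end Pool.Agent.H.MP_59b15d_al.H62D
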